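import Mathlib

/-!
Numerical lemmas (section 7) of helper72's proof of the Lovasz-Simonovits conjecture for all r.
Notation: `e` is eps, `m` is mm, `r` is rm, tau = Y/D is multiplied out.
-/

namespace Helper76.LSr

/-- The standing numerical hypotheses of the main lemma (with `mm >= 1`). -/
structure Par (k M X D Y e rho m Z r : ℤ) : Prop where
  hD : D = M + X
  he : e = D - Y
  hZ : Z = e - rho - m
  hX : X ≤ 1
  hm : 1 ≤ m
  hY : 1 + r ≤ Y
  hZ1 : 1 + r ≤ Z
  cs : (1 ≤ rho ∧ M ≤ k ∧ r = 0) ∨ (rho ≤ 0 ∧ M ≤ k - 1 ∧ r = -rho)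

variable {k M X D Y e rho m Z r J q Du C3 G3 : ℤ}

theorem Par.r0 (h : Par k M X D Y e rho m Z r) : 0 ≤ r := by
  rcases h.cs with ⟨_, _, h3⟩ | ⟨h1, _, h3⟩ <;> omega

theorem Par.Y1 (h : Par k M X D Y e rho m Z r) : 1 ≤ Y := by
  have := h.r0; have := h.hY; omega

theorem Par.e2 (h : Par k M X D Y e rho m Z r) : 2 ≤ e := by
  have h1 := h.hZ; have h2 := h.hZ1; have h3 := h.hm
  rcases h.cs with ⟨_, _, _⟩ | ⟨_, _, _⟩ <;> omega

theorem Par.D3 (h : Par k M X D Y e rho m Z r) : 3 ≤ D := by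
  have := h.Y1; have := h.e2; have := h.he; omega

theorem Par.k2 (h : Par k M X D Y e rho m Z r) : 2 ≤ k := by
  have := h.D3; have := h.hD; have := h.hX
  rcases h.cs with ⟨_, _, _⟩ | ⟨_, _, _⟩ <;> omega

theorem Par.k3 (h : Par k M X D Y e rho m Z r) : 3 ≤ k := by
  have h0 := h.D3; have h1 := h.hD; have h2 := h.hX; have h3 := h.hZ; have h4 := h.hZ1
  have h5 := h.hm; have h6 := h.he; have h7 := h.Y1
  rcases h.cs with ⟨_, _, _⟩ | ⟨_, _, _⟩ <;> omega

theorem Par.ek (h : Par k M X D Y e rho m Z r) : e ≤ k := by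
  have h1 := h.hD; have h2 := h.hX; have h6 := h.he; have h7 := h.Y1
  rcases h.cs with ⟨_, _, _⟩ | ⟨_, _, _⟩ <;> omega

theorem Par.DM (h : Par k M X D Y e rho m Z r) : D - 1 ≤ M := by
  have h1 := h.hD; have h2 := h.hX; omega

theorem Par.Z0 (h : Par k M X D Y e rho m Z r) : 1 ≤ Z := by
  have h1 := h.hZ1; have h2 := h.r0; omega

/-- `mm <= k - 2`. -/
theorem Par.m_le (h : Par k M X D Y e rho m Z r) : m ≤ k - 2 := by
  have h1 := h.hD; have h2 := h.hX; have h6 := h.he; have h7 := h.hY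
  have h3 := h.hZ; have h4 := h.hZ1
  rcases h.cs with ⟨_, _, _⟩ | ⟨_, _, _⟩ <;> omega

/-- key estimate 1. -/
theorem Par.B1 (h : Par k M X D Y e rho m Z r) : Y * Z - r * D ≤ Y * (e - 1) - r * e := by
  have hY := h.Y1
  have hZ := h.hZ
  have hD : D = Y + e := by have := h.he; omega
  have hm := h.hm
  rcases h.cs with ⟨h1, _, h3⟩ | ⟨h1, _, h3⟩
  · have : Z ≤ e - 1 := by omega
    subst h3
    nlinarith
  · have hz : Z ≤ e - 1 + r := by omega
    have := mul_le_mul_of_nonneg_left hz (by omega : (0 : ℤ) ≤ Y)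
    rw [hD]
    nlinarith

theorem Par.B1' (h : Par k M X D Y e rho m Z r) : Y * Z - r * D ≤ Y * (e - 1) := by
  have h1 := h.B1
  have h2 := mul_nonneg h.r0 (by have := h.e2; omega : (0 : ℤ) ≤ e)
  omega

/-- key estimate 2: `(2 + 3/k) tau <= 2`. -/
theorem Par.K2 (h : Par k M X D Y e rho m Z r) : (2 * k + 3) * Y ≤ 2 * k * D := by
  have hD : Y = D - e := by have := h.he; omega
  have he := h.e2
  have hk := h.k2
  have hDk : D ≤ k + 1 := by
    have h1 := h.hD; have h2 := h.hX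
    rcases h.cs with ⟨_, _, _⟩ | ⟨_, _, _⟩ <;> omega
  rw [hD]
  nlinarith

theorem Par.K2Z (h : Par k M X D Y e rho m Z r) : (2 * k + 3) * (Y * Z) ≤ 2 * (k * D * Z) := by
  have h1 := mul_le_mul_of_nonneg_right h.K2 (by have := h.Z0; omega : (0 : ℤ) ≤ Z)
  nlinarith

/-- (far1) -/
theorem Par.far1 (h : Par k M X D Y e rho m Z r) (hu : M + 2 ≤ 2 * Du) :
    0 ≤ (k + 1) * (Y * Du - Y * Z + r * D) + k * (Du - 1) * D := by
  have hk := h.k2
  have hD3 := h.D3
  have hY := h.Y1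
  have hB := h.B1'
  have hM := h.DM
  have hDu : D + 1 ≤ 2 * Du := by omega
  have hYD : Y = D - e := by have := h.he; omega
  have he := h.e2
  -- 2*(Y*Du) >= Y*(D+1)
  have a1 : Y * (D + 1) ≤ 2 * (Y * Du) := by nlinarith
  have a2 : (D - 1) * D ≤ 2 * ((Du - 1) * D) := by nlinarith
  have a3 : 0 ≤ (k + 1) * (Y * (D + 1) - 2 * (Y * (e - 1))) + k * ((D - 1) * D) := by
    have b1 : 8 * (Y * (2 * (e - 1) - (D + 1))) ≤ (D - 3) ^ 2 := by
      rw [hYD]; nlinarith [sq_nonneg (D - 3 - 4 * (D - e))]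
    have b2 : (k + 1) * (D - 3) ^ 2 ≤ 8 * (k * ((D - 1) * D)) := by
      have : (D - 3) ^ 2 ≤ (D - 1) * D := by nlinarith
      have h3 : 0 ≤ (D - 1) * D := by nlinarith
      nlinarith
    have b3 := mul_le_mul_of_nonneg_left b1 (by omega : (0 : ℤ) ≤ k + 1)
    nlinarith
  have a4 := mul_le_mul_of_nonneg_left a1 (by omega : (0 : ℤ) ≤ k + 1)
  have a5 := mul_le_mul_of_nonneg_left a2 (by omega : (0 : ℤ) ≤ k)
  have a6 := mul_le_mul_of_nonneg_left hB (by omega : (0 : ℤ) ≤ k + 1)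
  nlinarith

/-- (far2) -/
theorem Par.far2 (h : Par k M X D Y e rho m Z r) (hu : M + 1 ≤ Du) :
    0 ≤ (k + 1) * (Y * Du - Y * Z + r * D) + k * (Du - 2) * D := by
  have hk := h.k2
  have hD3 := h.D3
  have hY := h.Y1
  have hB := h.B1'
  have hM := h.DM
  have hDu : D ≤ Du := by omega
  have he := h.e2
  have hYD : D = Y + e := by have := h.he; omega
  have a1 : Y * D ≤ Y * Du := by nlinarith
  have a2 : 0 ≤ Y * Du - Y * Z + r * D := by nlinarith
  have a3 : 0 ≤ k * (Du - 2) * D :=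
    mul_nonneg (mul_nonneg (by omega) (by omega)) (by omega)
  have a4 := mul_nonneg (by omega : (0 : ℤ) ≤ k + 1) a2
  omega

/-- (c3) -/
theorem Par.c3 (h : Par k M X D Y e rho m Z r) : (k + 1) * (Y * Z - r * D) ≤ k * D * e := by
  have hk := h.k2
  have hB := h.B1'
  have he := h.e2
  have hek := h.ek
  have hY := h.Y1
  have hYD : D = Y + e := by have := h.he; omega
  have a1 := mul_le_mul_of_nonneg_left hB (by omega : (0 : ℤ) ≤ k + 1)
  have a2 : (k + 1) * (e - 1) ≤ k * e := by nlinarith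
  have a3 := mul_le_mul_of_nonneg_left a2 (by omega : (0 : ℤ) ≤ Y)
  have a4 : 0 ≤ k * e * (D - Y) := mul_nonneg (mul_nonneg (by omega) (by omega)) (by omega)
  nlinarith

theorem Par.kD_pos (h : Par k M X D Y e rho m Z r) : 0 < k * D :=
  mul_pos (by have := h.k2; omega) (by have := h.D3; omega)

theorem Par.C3_le (h : Par k M X D Y e rho m Z r)
    (hC : k * D * C3 < (k + 1) * (Y * Z - r * D)) : C3 ≤ e - 1 := by
  have h1 := h.c3
  have h2 := h.kD_pos
  have h3 : k * D * C3 < k * D * e := lt_of_lt_of_le hC h1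
  have := lt_of_mul_lt_mul_left h3 h2.le
  omega

/-- (x-1) -/
theorem Par.xm1 (h : Par k M X D Y e rho m Z r) (hX : X ≤ -2) :
    k * X * Y * D + (2 * k + 3) * (Y * Z) - (3 * k + 3) * (r * D) ≤ 0 := by
  have hk := h.k2
  have hB := h.B1'
  have he := h.e2
  have hek := h.ek
  have hY := h.Y1
  have hYD : D = Y + e := by have := h.he; omega
  have hr := h.r0
  have a1 : 0 ≤ k * r * D := mul_nonneg (mul_nonneg (by omega) hr) (by have := h.D3; omega)
  have a2 := mul_le_mul_of_nonneg_left hB (by omega : (0 : ℤ) ≤ 2 * k + 3)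
  have a3 : (2 * k + 3) * (e - 1) ≤ 2 * k * D := by rw [hYD]; nlinarith
  have a4 := mul_le_mul_of_nonneg_left a3 (by omega : (0 : ℤ) ≤ Y)
  have a5 : 0 ≤ (-2 - X) * (k * Y * D) :=
    mul_nonneg (by omega) (mul_nonneg (mul_nonneg (by omega) (by omega)) (by have := h.D3; omega))
  nlinarith

theorem Par.X_ge (h : Par k M X D Y e rho m Z r) (hG0 : 0 ≤ G3)
    (hG : k * D * G3 < k * X * Y * D + (2 * k + 3) * (Y * Z) - (3 * k + 3) * (r * D)) :
    -1 ≤ X := by
  by_contra hX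
  have h1 := h.xm1 (by omega)
  have h2 := mul_nonneg h.kD_pos.le hG0
  omega

/-- (h3): `X = 1`. -/
theorem Par.h3 (h : Par k M X D Y e rho m Z r) (hX : X = 1)
    (hJ : J ≤ m + (1 - X) * D - Y - rho) :
    k * D * J + (k * X * Y * D + (2 * k + 3) * (Y * Z) - (3 * k + 3) * (r * D))
      ≤ k * D * (2 * e) := by
  subst hX
  have hkD := h.kD_pos
  have hK := h.K2Z
  have hr := h.r0
  have hZ := h.hZ
  have hm := h.hm
  have hD0 : 0 ≤ D := by have := h.D3; omega
  have hrD : 0 ≤ r * D := mul_nonneg hr hD0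
  have hJ' : J ≤ m - Y - rho := by linarith
  rcases h.cs with ⟨h1, _, h3⟩ | ⟨h1, _, h3⟩
  · have : J + Y + 2 * Z ≤ 2 * e := by omega
    have := mul_le_mul_of_nonneg_left this hkD.le
    subst h3
    nlinarith
  · have : J + Y + 2 * Z - 3 * r ≤ 2 * e := by omega
    have := mul_le_mul_of_nonneg_left this hkD.le
    nlinarith

/-- (nc4) -/
theorem Par.nc4 (h : Par k M X D Y e rho m Z r) (hX1 : -1 ≤ X)
    (hJ : J ≤ m + (1 - X) * D - Y - rho) :
    k * D * J + (k * X * Y * D + (2 * k + 3) * (Y * Z) - (3 * k + 3) * (r * D))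
      ≤ k * D * (4 * e) := by
  have hkD := h.kD_pos
  have hK := h.K2Z
  have hr := h.r0
  have hZ := h.hZ
  have hm := h.hm
  have he := h.e2
  have hYe : Y = D - e := by have := h.he; omega
  have hD0 : 0 ≤ D := by have := h.D3; omega
  have hrD : 0 ≤ r * D := mul_nonneg hr hD0
  have hX : X = 1 ∨ X = 0 ∨ X = -1 := by have := h.hX; omega
  rcases hX with hX | hX | hX
  · have := h.h3 hX hJ
    have h2 : k * D * (2 * e) ≤ k * D * (4 * e) := mul_le_mul_of_nonneg_left (by omega) hkD.le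
    omega
  · subst hX
    have hJ' : J ≤ m + D - Y - rho := by linarith
    rcases h.cs with ⟨h1, _, h3⟩ | ⟨h1, _, h3⟩
    · have : J + 2 * Z ≤ 4 * e := by omega
      have := mul_le_mul_of_nonneg_left this hkD.le
      subst h3
      nlinarith
    · have : J + 2 * Z - 3 * r ≤ 4 * e := by omega
      have := mul_le_mul_of_nonneg_left this hkD.le
      nlinarith
  · subst hX
    have hJ' : J ≤ m + 2 * D - Y - rho := by linarith
    rcases h.cs with ⟨h1, _, h3⟩ | ⟨h1, _, h3⟩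
    · have : J - Y + 2 * Z ≤ 4 * e := by omega
      have := mul_le_mul_of_nonneg_left this hkD.le
      subst h3
      nlinarith
    · have : J - Y + 2 * Z - 3 * r ≤ 4 * e := by omega
      have := mul_le_mul_of_nonneg_left this hkD.le
      nlinarith

theorem Par.JG_le (h : Par k M X D Y e rho m Z r) (hX1 : -1 ≤ X)
    (hJ : J ≤ m + (1 - X) * D - Y - rho)
    (hG : k * D * G3 < k * X * Y * D + (2 * k + 3) * (Y * Z) - (3 * k + 3) * (r * D)) :
    J + G3 ≤ 4 * e := by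
  have h1 := h.nc4 hX1 hJ
  have h2 : k * D * (J + G3) < k * D * (4 * e) := by linarith
  have := lt_of_mul_lt_mul_left h2 h.kD_pos.le
  omega

theorem Par.JG_le2 (h : Par k M X D Y e rho m Z r) (hX : X = 1)
    (hJ : J ≤ m + (1 - X) * D - Y - rho)
    (hG : k * D * G3 < k * X * Y * D + (2 * k + 3) * (Y * Z) - (3 * k + 3) * (r * D)) :
    J + G3 ≤ 2 * e := by
  have h1 := h.h3 hX hJ
  have h2 : k * D * (J + G3) < k * D * (2 * e) := by linarith
  have := lt_of_mul_lt_mul_left h2 h.kD_pos.le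
  omega

/-- (h2): `X = 1`. -/
theorem Par.h2 (h : Par k M X D Y e rho m Z r) (hX : X = 1) (hJk : J = k + 1 - D)
    (hJ : J ≤ m + (1 - X) * D - Y - rho) :
    k * X * Y * D + (2 * k + 3) * (Y * Z) - (3 * k + 3) * (r * D) ≤ k * D * (2 * e) := by
  subst hX
  have hkD := h.kD_pos
  have hK := h.K2Z
  have hr := h.r0
  have hZ := h.hZ
  have hm := h.hm
  have hD := h.hD
  have he := h.he
  have hD0 : 0 ≤ D := by have := h.D3; omega
  have hrD : 0 ≤ r * D := mul_nonneg hr hD0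
  have hJ' : J ≤ m - Y - rho := by linarith
  rcases h.cs with ⟨h1, h2, h3⟩ | ⟨h1, h2, h3⟩
  · have : Y + 2 * Z ≤ 2 * e := by omega
    have := mul_le_mul_of_nonneg_left this hkD.le
    subst h3
    nlinarith
  · have : Y + 2 * Z - 3 * r ≤ 2 * e := by omega
    have := mul_le_mul_of_nonneg_left this hkD.le
    nlinarith

theorem Par.G_lt (h : Par k M X D Y e rho m Z r) (hX : X = 1) (hJk : J = k + 1 - D)
    (hJ : J ≤ m + (1 - X) * D - Y - rho)
    (hG : k * D * G3 < k * X * Y * D + (2 * k + 3) * (Y * Z) - (3 * k + 3) * (r * D)) :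
    G3 < 2 * e := by
  have h1 := h.h2 hX hJk hJ
  exact lt_of_mul_lt_mul_left (lt_of_lt_of_le hG h1) h.kD_pos.le

/-- common estimate for `X = 1`: both (h1) and (F). -/
theorem Par.core1 (h : Par k M X D Y e rho m Z r) (hX : X = 1) (hJk : J = k + 1 - D)
    (hJ : J ≤ m + (1 - X) * D - Y - rho) :
    3 * (k + 1) * (Y * Z) - (4 * k + 3) * (r * D) ≤ k * (e - 1) * D ∧
    (2 * k + 3) * (Y * Z) - (3 * k + 3) * (r * D) ≤ k * (e - 1) * D := by
  subst hX
  have hk := h.k3
  have hr := h.r0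
  have hZ := h.hZ
  have hZ1 := h.hZ1
  have hm := h.hm
  have hY := h.hY
  have hY1 := h.Y1
  have hD := h.hD
  have he2 := h.e2
  have hDe : D = Y + e := by have := h.he; omega
  have hJ' : J ≤ m - Y - rho := by linarith
  rcases h.cs with ⟨h1, h2, h3⟩ | ⟨h1, h2, h3⟩
  · subst h3
    have hb : Z ≤ e - 2 - Y := by omega
    have hYZ : Y * Z ≤ Y * (e - 2 - Y) := mul_le_mul_of_nonneg_left hb (by omega)
    have h4 : 4 * (Y * (e - 2 - Y)) ≤ (e - 2) ^ 2 := by nlinarith [sq_nonneg (e - 2 - 2 * Y)]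
    have h5 : (e - 2) ^ 2 ≤ (e - 1) * D := by rw [hDe]; nlinarith
    have h6 : 4 * (Y * Z) ≤ (e - 1) * D := by linarith
    have h7 : 0 ≤ Y * Z := mul_nonneg (by omega) (by have := h.Z0; omega)
    have h8 := mul_le_mul_of_nonneg_left h6 (by omega : (0 : ℤ) ≤ k)
    constructor
    · nlinarith
    · nlinarith
  · obtain ⟨z, hz⟩ : ∃ z, Z = z + r := ⟨Z - r, by ring⟩
    have hz1 : 1 ≤ z := by omega
    have hz2 : z ≤ e + r - 1 - Y := by omega
    have hYz : Y * z ≤ Y * (e + r - 1 - Y) := mul_le_mul_of_nonneg_left hz2 (by omega)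
    have h4 : 4 * (Y * (e + r - 1 - Y)) ≤ (e + r - 1) ^ 2 := by
      nlinarith [sq_nonneg (e + r - 1 - 2 * Y)]
    have h0 : 0 ≤ Y * z := mul_nonneg (by omega) (by omega)
    have hYr : (1 + r) * r ≤ Y * r := mul_le_mul_of_nonneg_right hY hr
    have hYe : 0 ≤ Y * (e - 1) := mul_nonneg (by omega) (by omega)
    have hre : 0 ≤ r * e := mul_nonneg hr (by omega)
    have h5 : 4 * (Y * z) ≤ (e - 1) * (Y + e) + r * (Y + 3 * e) := by nlinarith
    have h8 := mul_le_mul_of_nonneg_left h5 (by omega : (0 : ℤ) ≤ k)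
    have h9 : 3 * (k + 1) * (Y * z) ≤ k * (4 * (Y * z)) := by nlinarith
    have h10 : (2 * k + 3) * (Y * z) ≤ k * (4 * (Y * z)) := by nlinarith
    rw [hz, hDe]
    constructor
    · nlinarith
    · nlinarith

/-- (h1): `X = 1`. -/
theorem Par.h1 (h : Par k M X D Y e rho m Z r) (hX : X = 1) (hJk : J = k + 1 - D)
    (hJ : J ≤ m + (1 - X) * D - Y - rho) :
    (2 * k + 3) * (Y * Z) - (3 * k + 3) * (r * D) ≤ k * (e - 1) * D :=
  (h.core1 hX hJk hJ).2

/-- (F) -/
theorem Par.F (h : Par k M X D Y e rho m Z r) (hX1 : -1 ≤ X) (hJk : J = k + 1 - D)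
    (hJ : J ≤ m + (1 - X) * D - Y - rho) :
    k * X * Y * D + 3 * (k + 1) * (Y * Z) - (4 * k + 3) * (r * D) ≤ k * (D - 1) * D := by
  have hX : X = 1 ∨ X ≤ 0 := by have := h.hX; omega
  rcases hX with hX | hX
  · have h1 := (h.core1 hX hJk hJ).1
    have hDe : D = Y + e := by have := h.he; omega
    subst hX
    have : k * 1 * Y * D = k * (Y * D) := by ring
    have h2 : k * (e - 1) * D + k * (Y * D) = k * (D - 1) * D := by rw [hDe]; ring
    linarith
  · have hk := h.k3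
    have hB := h.B1'
    have he := h.e2
    have hY := h.Y1
    have hD3 := h.D3
    have hr := h.r0
    have hDe : Y = D - e := by have := h.he; omega
    have hDk : D ≤ k := by
      have h1 := h.hD
      rcases h.cs with ⟨_, _, _⟩ | ⟨_, _, _⟩ <;> omega
    have a0 : 0 ≤ (-X) * (k * (Y * D)) :=
      mul_nonneg (by omega) (mul_nonneg (by omega) (mul_nonneg (by omega) (by omega)))
    have a1 : 0 ≤ k * (r * D) := mul_nonneg (by omega) (mul_nonneg hr (by omega))
    have a2 := mul_le_mul_of_nonneg_left hB (by omega : (0 : ℤ) ≤ 3 * (k + 1))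
    have a3 : 4 * (Y * (e - 1)) ≤ (D - 1) ^ 2 := by
      rw [hDe]; nlinarith [sq_nonneg (D + 1 - 2 * e)]
    have a4 : 3 * (k + 1) * (D - 1) ^ 2 ≤ 4 * (k * (D - 1) * D) := by
      have : 3 * (k + 1) * (D - 1) ≤ 4 * k * D := by nlinarith
      have := mul_le_mul_of_nonneg_right this (by omega : (0 : ℤ) ≤ D - 1)
      nlinarith
    have a5 := mul_le_mul_of_nonneg_left a3 (by omega : (0 : ℤ) ≤ 3 * (k + 1))
    nlinarith

end Helper76.LSr
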