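import Pool.Agent.Helper72.LSr.NumDef
import Pool.Agent.Helper76.LSr.Num

/-!
# The numerical lemmas LR-F1 .. LR-F4 in the form of helper72's stub file `LSr/Num.lean`.
-/

namespace Pool.Agent.Helper76.LSr

open Pool.Agent.Helper72.LSr

variable {k M X D Y ρ mm : ℤ}

theorem toPar (h : NumH k M X D Y ρ mm) :
    Helper76.LSr.Par k M X D Y (D - Y) ρ mm (D - Y - ρ - mm) (max (-ρ) 0) where
  hD := h.hD
  he := rfl
  hZ := rfl
  hX := h.hX
  hm := h.hm
  hY := h.hY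
  hZ1 := h.hZ
  cs := by
    rcases h.hcase with ⟨h1, h2⟩ | ⟨h1, h2⟩
    · exact Or.inl ⟨h1, h2, max_eq_right (by omega)⟩
    · exact Or.inr ⟨h1, h2, max_eq_left (by omega)⟩

theorem two_le_k (h : NumH k M X D Y ρ mm) : 2 ≤ k := (toPar h).k2

theorem three_le_k (h : NumH k M X D Y ρ mm) : 3 ≤ k := (toPar h).k3

theorem far1 (h : NumH k M X D Y ρ mm) (Du : ℤ) (hDu : M + 2 ≤ 2 * Du) :
    (k + 1) * (Y * (D - Y - ρ - mm) - max (-ρ) 0 * D) ≤ (k + 1) * Y * Du + k * (Du - 1) * D := by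
  have := (toPar h).far1 hDu
  linarith

theorem far2 (h : NumH k M X D Y ρ mm) (Du : ℤ) (hDu : M + 1 ≤ Du) :
    (k + 1) * (Y * (D - Y - ρ - mm) - max (-ρ) 0 * D) ≤ (k + 1) * Y * Du + k * (Du - 2) * D := by
  have := (toPar h).far2 hDu
  linarith

theorem c3 (h : NumH k M X D Y ρ mm) :
    (k + 1) * (Y * (D - Y - ρ - mm) - max (-ρ) 0 * D) ≤ k * D * (D - Y) :=
  (toPar h).c3

theorem xm1 (h : NumH k M X D Y ρ mm)
    (h0 : 0 < k * X * Y * D + (2 * k + 3) * Y * (D - Y - ρ - mm) - (3 * k + 3) * max (-ρ) 0 * D) :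
    -1 ≤ X := by
  by_contra hX
  have := (toPar h).xm1 (by omega)
  linarith

theorem nc4 (h : NumH k M X D Y ρ mm) (hX : -1 ≤ X) :
    k * D * (k + 1 - D) +
      (k * X * Y * D + (2 * k + 3) * Y * (D - Y - ρ - mm) - (3 * k + 3) * max (-ρ) 0 * D)
      ≤ k * D * (4 * (D - Y) + 1) := by
  have := (toPar h).nc4 hX h.hJ
  have := (toPar h).kD_pos
  linarith

theorem fF (h : NumH k M X D Y ρ mm) (hX : -1 ≤ X) :
    k * X * Y * D + 3 * (k + 1) * Y * (D - Y - ρ - mm) - (4 * k + 3) * max (-ρ) 0 * D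
      ≤ k * (D - 1) * D := by
  have := (toPar h).F hX rfl h.hJ
  linarith

theorem h1 (h : NumH k M X D Y ρ mm) (hX : X = 1) :
    (2 * k + 3) * Y * (D - Y - ρ - mm) - (3 * k + 3) * max (-ρ) 0 * D ≤ k * (D - Y - 1) * D := by
  have := (toPar h).h1 hX rfl h.hJ
  linarith

theorem h2 (h : NumH k M X D Y ρ mm) (hX : X = 1) :
    k * Y * D + (2 * k + 3) * Y * (D - Y - ρ - mm) - (3 * k + 3) * max (-ρ) 0 * D
      ≤ 2 * k * D * (D - Y) := by
  have := (toPar h).h2 hX rfl h.hJ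
  subst hX
  linarith

theorem h3 (h : NumH k M X D Y ρ mm) (hX : X = 1) :
    k * D * (k + 1 - D) +
      (k * Y * D + (2 * k + 3) * Y * (D - Y - ρ - mm) - (3 * k + 3) * max (-ρ) 0 * D)
      ≤ k * D * (2 * (D - Y) + 1) := by
  have := (toPar h).h3 hX h.hJ
  have := (toPar h).kD_pos
  subst hX
  linarith

theorem mm_le (h : NumH k M X D Y ρ mm) : mm ≤ k := by
  have := (toPar h).m_le
  omega

theorem mm_le_sub_two (h : NumH k M X D Y ρ mm) : mm ≤ k - 2 := (toPar h).m_le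

end Pool.Agent.Helper76.LSr
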