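import Pool.Agent.Helper72.LSr.S6b
import Pool.Agent.Helper76.LSr.NumH

/-!
# Piece LR-M3 of the main lemma
-/

namespace Pool.Agent.Helper76.LSr

open Finset
open scoped Classical
open Pool.Agent.Helper72.LSr

variable {V : Type} {j : ℕ} {G : SimpleGraph V} {S : Finset V} {k A B : ℕ} {w : V}

theorem m_mem_NH {x : V} : x ∈ NH G S w ↔ x ∈ S ∧ ¬ G.Adj w x ∧ x ≠ w := by
  unfold NH; rw [mem_filter]

theorem m_Qf_sub_nb {f : V → ℕ} {u : V} : Qf G (NH G S w) f u ⊆ nb G S u := by
  intro x hx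
  unfold Qf at hx
  rw [mem_filter, m_mem_NH] at hx
  rw [mem_nb]
  exact ⟨hx.1.1, hx.2.1⟩

theorem m_sq_nonneg (h : ML V j G S k A B w) {u : V} (hu : u ∈ S) {R : Finset V}
    (hR : R ⊆ nb G S u) : 0 ≤ (sq k (A + 1) B G S) u R := by
  unfold Pool.Agent.Helper72.LSr.sq
  have h1 := K_nonneg G R 2
  have h2 : 0 ≤ ∑ x ∈ R, (cv k (A + 1) B G S) u x := sum_nonneg fun x hx => by
    have := hR hx
    rw [mem_nb] at this
    exact h.hc u hu x this.1 this.2
  linarith

/-- adjacent `u, x ∈ NH`: `D_u + D_x ≥ M + 2` -/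
theorem ml_D_add (h : ML V j G S k A B w) {u x : V} (hu : u ∈ NH G S w) (hx : x ∈ NH G S w)
    (hadj : G.Adj u x) : (MS k (A + 1) B S) + 2 ≤ (Dv k (A + 1) B G S) u + (Dv k (A + 1) B G S) x := by
  rw [m_mem_NH] at hu hx
  have hc := h.hc u hu.1 x hx.1 hadj
  have h1 : (nb G S u ∪ nb G S x) ⊆ S.erase w := by
    intro y hy
    rw [mem_union, mem_nb, mem_nb] at hy
    rw [mem_erase]
    rcases hy with hy | hy
    · refine ⟨?_, hy.1⟩
      rintro rfl
      exact hu.2.1 hy.2.symm
    · refine ⟨?_, hy.1⟩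
      rintro rfl
      exact hx.2.1 hy.2.symm
  have h2 := card_le_card h1
  rw [card_erase_of_mem h.hw] at h2
  have h3 := card_union_add_card_inter (nb G S u) (nb G S x)
  have h4 : 1 ≤ S.card := card_pos.2 ⟨w, h.hw⟩
  unfold cv at hc
  unfold Dv MS Mm nu
  omega

/-- each term of `C1'` is at most the whole -/
theorem m_term (h : ML V j G S k A B w) (f : V → ℕ) (hf : Set.InjOn f (NH G S w)) {u : V}
    (hu : u ∈ NH G S w) :
    (Dv k (A + 1) B G S) w * con k A B j G S u (Qf G (NH G S w) f u) + (es k A B (j + 1)) * ((Yv k (A + 1) B G S) w * (Dv k (A + 1) B G S) u - (Dv k (A + 1) B G S) w * (Yv k (A + 1) B G S) u)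
      ≤ (es k A B (j + 1)) * (Yv k (A + 1) B G S) w * (Dv k (A + 1) B G S w - Yv k (A + 1) B G S w - rS k (A + 1) B G S - K G (NH G S w) 2) - (Dv k (A + 1) B G S) w * (1 + (es k A B (j + 1)) * (max (-(rS k (A + 1) B G S)) 0)) := by
  have h1 := id_one' h.hw k A B j f hf
  have h2 : (Dv k (A + 1) B G S) w * con k A B j G S u (Qf G (NH G S w) f u) + (es k A B (j + 1)) * ((Yv k (A + 1) B G S) w * (Dv k (A + 1) B G S) u - (Dv k (A + 1) B G S) w * (Yv k (A + 1) B G S) u)
      ≤ ∑ u ∈ NH G S w, ((Dv k (A + 1) B G S) w * con k A B j G S u (Qf G (NH G S w) f u)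
        + (es k A B (j + 1)) * ((Yv k (A + 1) B G S) w * (Dv k (A + 1) B G S) u - (Dv k (A + 1) B G S) w * (Yv k (A + 1) B G S) u)) := by
    apply single_le_sum (f := fun u => (Dv k (A + 1) B G S) w * con k A B j G S u (Qf G (NH G S w) f u)
        + (es k A B (j + 1)) * ((Yv k (A + 1) B G S) w * (Dv k (A + 1) B G S) u - (Dv k (A + 1) B G S) w * (Yv k (A + 1) B G S) u)) (fun v hv => ?_) hu
    exact ml_con h (m_mem_NH.1 hv).1 m_Qf_sub_nb
  rw [sum_add_distrib, ← mul_sum, ← mul_sum] at h2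
  have h3 := ml_L h
  have h4 := h.hQ
  have h5 := h.hD w h.hw
  have h6 : (Dv k (A + 1) B G S) w * (1 + (es k A B (j + 1)) * (max (-(rS k (A + 1) B G S)) 0)) ≤ (Dv k (A + 1) B G S) w * ((- Phi k (A + 1) B (j + 2) G S) + (Phi k A B (j + 2) G (nb G S w)) + (Phi k A B (j + 1) G (nb G S w))) :=
    mul_le_mul_of_nonneg_left (by linarith [h3.1, h3.2]) (by linarith)
  linarith

theorem ml_far (h : ML V j G S k A B w) (hm : 1 ≤ (K G (NH G S w) 2)) (f : V → ℕ) (hf : Set.InjOn f (NH G S w))
    (hfD : ∀ x ∈ NH G S w, ∀ u ∈ NH G S w, f x < f u → (Dv k (A + 1) B G S) x ≤ (Dv k (A + 1) B G S) u) :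
    ∀ u ∈ NH G S w,
      k * ((Dv k (A + 1) B G S) w * (es k A B (j + 1)) * (sq k (A + 1) B G S) u (Qf G (NH G S w) f u) + (es k A B (j + 1)) * ((Yv k (A + 1) B G S) w * (Dv k (A + 1) B G S) u - (Dv k (A + 1) B G S) w * (Yv k (A + 1) B G S) u))
      ≤ (k + 1) * ((Dv k (A + 1) B G S) w * con k A B j G S u (Qf G (NH G S w) f u)
          + (es k A B (j + 1)) * ((Yv k (A + 1) B G S) w * (Dv k (A + 1) B G S) u - (Dv k (A + 1) B G S) w * (Yv k (A + 1) B G S) u)) := by
  intro u hu
  set R := Qf G (NH G S w) f u with hR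
  have hRu : R ⊆ nb G S u := m_Qf_sub_nb
  have huS := (m_mem_NH.1 hu).1
  have hs := m_sq_nonneg h huS hRu
  have hnum := ml_num h hm
  have hk2 := two_le_k hnum
  obtain ⟨-, hlam, hZ⟩ := ml_main h
  have hterm := m_term h f hf hu
  rw [← hR] at hterm
  have e1 := gS_nb_sdiff G S k A B huS hRu
  have e2 := MS_nb_sdiff G S k A B hRu
  have e3 := rS_eq (G := G) (S := nb G S u \ R) k A B
  have hDu := h.hD u huS
  have hEu := h.hE u huS
  have hDw := h.hD w h.hw
  have hEw := h.hE w h.hw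
  have hYw := h.hY
  have hrm : 0 ≤ (max (-(rS k (A + 1) B G S)) 0) := le_max_right _ _
  have hmax := h.hmax u huS
  have hq : (0 : ℤ) ≤ R.card := by positivity
  have hcon : con k A B j G S u R = (es k A B (j + 1)) * (sq k (A + 1) B G S) u R + Phi k A B (j + 1) G (nb G S u \ R) := rfl
  rw [hcon] at hterm ⊢
  by_cases hg : 0 ≤ gS k A B G (nb G S u \ R)
  · -- valid
    have h1 := Phi_nonneg (i := j + 1) (G := G) (S := nb G S u \ R) (fun m => h.th1 _ m) h.hk
      (by linarith) hg
    have h2 : 0 ≤ (Dv k (A + 1) B G S) w * ((es k A B (j + 1)) * (sq k (A + 1) B G S) u R) :=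
      mul_nonneg (by linarith) (mul_nonneg (by linarith) hs)
    have h3 : 0 ≤ (es k A B (j + 1)) * ((Yv k (A + 1) B G S) w * (Dv k (A + 1) B G S) u - (Dv k (A + 1) B G S) w * (Yv k (A + 1) B G S) u) := mul_nonneg (by linarith) (by linarith)
    have h4 : 0 ≤ ((k : ℤ) + 1) * ((Dv k (A + 1) B G S) w * Phi k A B (j + 1) G (nb G S u \ R)) :=
      mul_nonneg (by positivity) (mul_nonneg (by linarith) h1)
    nlinarith
  · push Not at hg
    rw [e1] at hg
    by_cases hx : (sq k (A + 1) B G S) u R - (Yv k (A + 1) B G S) u ≤ (Dv k (A + 1) B G S) u + R.card - 2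
    · have h1 := Phi_ov (j := j) (G := G) (S := nb G S u \ R) (fun m => h.th1 _ m)
        (by exact_mod_cast hk2) ((sq k (A + 1) B G S) u R - (Yv k (A + 1) B G S) u) (by linarith) (by rw [e1]; linarith)
        (by rw [e2]; linarith)
      rw [e1] at h1
      have h2 : -(((sq k (A + 1) B G S) u R - (Yv k (A + 1) B G S) u) * (es k A B (j + 1))) ≤ ((k : ℤ) + 1) * Phi k A B (j + 1) G (nb G S u \ R) := by
        nlinarith
      have h3 := mul_le_mul_of_nonneg_left h2 (by linarith : 0 ≤ (Dv k (A + 1) B G S) w)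
      have h4 : 0 ≤ (es k A B (j + 1)) * ((Yv k (A + 1) B G S) w * (Dv k (A + 1) B G S) u) :=
        mul_nonneg (by linarith) (mul_nonneg (by linarith) (by linarith))
      nlinarith
    · exfalso
      push Not at hx
      have hM2 : 2 ≤ (Dv k (A + 1) B G S) u + R.card ∧
          ((k : ℤ) + 1) * ((Yv k (A + 1) B G S) w * (Dv k (A + 1) B G S w - Yv k (A + 1) B G S w - rS k (A + 1) B G S - K G (NH G S w) 2) - (max (-(rS k (A + 1) B G S)) 0) * (Dv k (A + 1) B G S) w)
            ≤ (k + 1) * ((Yv k (A + 1) B G S) w * (Dv k (A + 1) B G S) u) + k * ((Dv k (A + 1) B G S) u + R.card - 2) * (Dv k (A + 1) B G S) w := by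
        have hXM := h.hX
        rcases R.eq_empty_or_nonempty with hRe | hRn
        · have hc0 : (R.card : ℤ) = 0 := by rw [hRe]; simp
          have hs0 : (sq k (A + 1) B G S) u R = 0 := by
            rw [hRe]; unfold Pool.Agent.Helper72.LSr.sq
            rw [show (2 : ℕ) = 1 + 1 from rfl, K_empty]; simp
          have h5 := h.h5 u huS (by linarith)
          have hDM : (MS k (A + 1) B S) + 1 ≤ (Dv k (A + 1) B G S) u := by
            rcases h5 with h5 | h5
            · linarith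
            · exact h5
          have := far2 hnum ((Dv k (A + 1) B G S) u) hDM
          refine ⟨by linarith, ?_⟩
          rw [hc0]
          nlinarith
        · obtain ⟨x, hxR⟩ := hRn
          have hc1 : (1 : ℤ) ≤ R.card := by
            have := card_pos.2 ⟨x, hxR⟩
            exact_mod_cast this
          have hx' := hxR
          rw [hR] at hx'
          unfold Qf at hx'
          rw [mem_filter] at hx'
          have h6 := ml_D_add h hu hx'.1 hx'.2.1
          have h7 := hfD x hx'.1 u hu hx'.2.2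
          have := far1 hnum ((Dv k (A + 1) B G S) u) (by linarith)
          refine ⟨by linarith, ?_⟩
          have h8 : (k : ℤ) * ((Dv k (A + 1) B G S) u - 1) * (Dv k (A + 1) B G S) w ≤ k * ((Dv k (A + 1) B G S) u + R.card - 2) * (Dv k (A + 1) B G S) w := by
            apply mul_le_mul_of_nonneg_right _ (by linarith)
            apply mul_le_mul_of_nonneg_left _ (by positivity)
            linarith
          nlinarith
      obtain ⟨hM2, hfar⟩ := hM2
      have h1 := Phi_ov (j := j) (G := G) (S := nb G S u \ R) (fun m => h.th1 _ m)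
        (by exact_mod_cast hk2) ((Dv k (A + 1) B G S) u + R.card - 2) (by linarith) (by rw [e1]; linarith)
        (by rw [e2])
      rw [e1] at h1
      -- (k+1) (D con + slack) ≥ (es k A B (j + 1)) ((k+1) Y Du + k D (Du + |R| - 2))
      have h2 := mul_le_mul_of_nonneg_left h1 (by linarith : 0 ≤ (Dv k (A + 1) B G S) w)
      have h3 := mul_le_mul_of_nonneg_left hterm (by positivity : (0 : ℤ) ≤ k + 1)
      have h4 := mul_le_mul_of_nonneg_left hfar (by linarith : 0 ≤ (es k A B (j + 1)))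
      have h5 : (0 : ℤ) < (k + 1) * (Dv k (A + 1) B G S) w := mul_pos (by positivity) (by linarith)
      nlinarith

end Pool.Agent.Helper76.LSr
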