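import Pool.Agent.Helper72.LSr.S6c
import Pool.Agent.Helper76.LSr.NumH

/-!
# Piece LR-M4 of the main lemma
-/

namespace Pool.Agent.Helper76.LSr

open Finset
open scoped Classical
open Pool.Agent.Helper72.LSr

variable {V : Type} {j : ℕ} {G : SimpleGraph V} {S : Finset V} {k A B : ℕ} {w : V}

theorem m4_mem_NH {x : V} : x ∈ NH G S w ↔ x ∈ S ∧ ¬ G.Adj w x ∧ x ≠ w := by
  unfold NH; rw [mem_filter]

theorem m4_Qf_sub_nb {f : V → ℕ} {u : V} : Qf G (NH G S w) f u ⊆ nb G S u := by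
  intro x hx
  unfold Qf at hx
  rw [mem_filter, m4_mem_NH] at hx
  rw [mem_nb]
  exact ⟨hx.1.1, hx.2.1⟩

/-! ### LR-M4 -/

/-- `C3` and the slack, for some ordering `f` -/
theorem ml_C3 (h : ML V j G S k A B w) (hm : 1 ≤ (K G (NH G S w) 2)) :
    ∃ f : V → ℕ, Set.InjOn f (NH G S w) ∧
      k * ((Dv k (A + 1) B G S) w * (es k A B (j + 1)) * (∑ u ∈ NH G S w, (sq k (A + 1) B G S) u (Qf G (NH G S w) f u))
        + (es k A B (j + 1)) * ∑ u ∈ NH G S w, ((Yv k (A + 1) B G S) w * (Dv k (A + 1) B G S) u - (Dv k (A + 1) B G S) w * (Yv k (A + 1) B G S) u))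
      ≤ (k + 1) * ((es k A B (j + 1)) * (Yv k (A + 1) B G S) w * (Dv k (A + 1) B G S w - Yv k (A + 1) B G S w - rS k (A + 1) B G S - K G (NH G S w) 2) - (Dv k (A + 1) B G S) w * ((- Phi k (A + 1) B (j + 2) G S) + (Phi k A B (j + 2) G (nb G S w)) + (Phi k A B (j + 1) G (nb G S w)))) := by
  obtain ⟨f, hf, hfD⟩ := exists_order (NH G S w) (Dv k (A + 1) B G S)
  refine ⟨f, hf, ?_⟩
  have h1 := id_one' h.hw k A B j f hf
  have h2 := sum_le_sum (ml_far h hm f hf hfD)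
  rw [← mul_sum, ← mul_sum, sum_add_distrib, sum_add_distrib, ← mul_sum, ← mul_sum, ← mul_sum]
    at h2
  have h3 : (es k A B (j + 1)) * (Yv k (A + 1) B G S) w * (Dv k (A + 1) B G S w - Yv k (A + 1) B G S w - rS k (A + 1) B G S - K G (NH G S w) 2) - (Dv k (A + 1) B G S) w * ((- Phi k (A + 1) B (j + 2) G S) + (Phi k A B (j + 2) G (nb G S w)) + (Phi k A B (j + 1) G (nb G S w))) =
      (Dv k (A + 1) B G S) w * (∑ u ∈ NH G S w, con k A B j G S u (Qf G (NH G S w) f u))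
        + (es k A B (j + 1)) * ∑ u ∈ NH G S w, ((Yv k (A + 1) B G S) w * (Dv k (A + 1) B G S) u - (Dv k (A + 1) B G S) w * (Yv k (A + 1) B G S) u) := by
    linarith
  rw [h3]
  exact h2

theorem m_slack (h : ML V j G S k A B w) :
    0 ≤ ∑ u ∈ NH G S w, ((Yv k (A + 1) B G S) w * (Dv k (A + 1) B G S) u - (Dv k (A + 1) B G S) w * (Yv k (A + 1) B G S) u) :=
  sum_nonneg fun u hu => by
    have := h.hmax u (m4_mem_NH.1 hu).1
    linarith

/-- (EB') -/
theorem ml_EB (h : ML V j G S k A B w) (hm : 1 ≤ (K G (NH G S w) 2)) :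
    k * (Dv k (A + 1) B G S) w * (es k A B (j + 1)) * (∑ y ∈ NH G S w, (sq k (A + 1) B G S) w (Qs G S w y))
      ≤ k * (es k A B (j + 1)) * ((Dv k (A + 1) B G S) w - (MS k (A + 1) B S)) * (Yv k (A + 1) B G S) w * (Dv k (A + 1) B G S) w + (2 * k + 3) * (es k A B (j + 1)) * (Yv k (A + 1) B G S) w * (Dv k (A + 1) B G S w - Yv k (A + 1) B G S w - rS k (A + 1) B G S - K G (NH G S w) 2)
        - (3 * k + 3) * (Dv k (A + 1) B G S) w * ((- Phi k (A + 1) B (j + 2) G S) + (Phi k A B (j + 2) G (nb G S w)) + (Phi k A B (j + 1) G (nb G S w))) := by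
  obtain ⟨f, hf, h1⟩ := ml_C3 h hm
  have h2 := id_G3 G S h.hw k (A + 1) B f hf
  have h3 := id_E2 G S h.hw k (A + 1) B
  have h4 := m_slack h
  have hlam := es_nonneg k A B (j + 1)
  have hDw := h.hD w h.hw
  -- `t ≤ C3`
  have h5 : K G (NH G S w) 3 ≤ ∑ u ∈ NH G S w, (sq k (A + 1) B G S) u (Qf G (NH G S w) f u) := by
    rw [show (3 : ℕ) = 2 + 1 from rfl, K_last G (NH G S w) f hf 2]
    apply sum_le_sum
    intro u hu
    unfold Pool.Agent.Helper72.LSr.sq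
    have : 0 ≤ ∑ x ∈ Qf G (NH G S w) f u, (cv k (A + 1) B G S) u x := sum_nonneg fun x hx => by
      have hx' := m4_Qf_sub_nb hx
      rw [mem_nb] at hx'
      exact h.hc u (m4_mem_NH.1 hu).1 x hx'.1 hx'.2
    linarith
  set C3 := ∑ u ∈ NH G S w, (sq k (A + 1) B G S) u (Qf G (NH G S w) f u) with hC3
  set G3 := ∑ y ∈ NH G S w, (sq k (A + 1) B G S) w (Qs G S w y) with hG3
  have h6 : (Dv k (A + 1) B G S) w * G3 = (Dv k (A + 1) B G S) w * (((Dv k (A + 1) B G S) w - (MS k (A + 1) B S)) * (Yv k (A + 1) B G S) w) + 2 * ((Dv k (A + 1) B G S) w * C3) + (Dv k (A + 1) B G S) w * K G (NH G S w) 3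
      + (∑ u ∈ NH G S w, ((Yv k (A + 1) B G S) w * (Dv k (A + 1) B G S) u - (Dv k (A + 1) B G S) w * (Yv k (A + 1) B G S) u)) - (Yv k (A + 1) B G S) w * (Dv k (A + 1) B G S w - Yv k (A + 1) B G S w - rS k (A + 1) B G S - K G (NH G S w) 2) := by
    rw [sum_sub_distrib, ← mul_sum, ← mul_sum]
    linear_combination (Dv k (A + 1) B G S) w * h2 - (Yv k (A + 1) B G S) w * h3
  have h7 : (Dv k (A + 1) B G S) w * K G (NH G S w) 3 ≤ (Dv k (A + 1) B G S) w * C3 := mul_le_mul_of_nonneg_left h5 (by linarith)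
  have h8 : (Dv k (A + 1) B G S) w * G3 ≤ (Dv k (A + 1) B G S) w * (((Dv k (A + 1) B G S) w - (MS k (A + 1) B S)) * (Yv k (A + 1) B G S) w) + 3 * ((Dv k (A + 1) B G S) w * C3)
      + 3 * (∑ u ∈ NH G S w, ((Yv k (A + 1) B G S) w * (Dv k (A + 1) B G S) u - (Dv k (A + 1) B G S) w * (Yv k (A + 1) B G S) u)) - (Yv k (A + 1) B G S) w * (Dv k (A + 1) B G S w - Yv k (A + 1) B G S w - rS k (A + 1) B G S - K G (NH G S w) 2) := by linarith
  have h9 := mul_le_mul_of_nonneg_left h8 (mul_nonneg (by positivity : (0 : ℤ) ≤ k) hlam)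
  linarith

/-- `t_B ≤ ε - 1` -/
theorem ml_tB (h : ML V j G S k A B w) (hm : 1 ≤ (K G (NH G S w) 2)) {y y' : V} (hy : y ∈ NH G S w)
    (hy' : y' ∈ NH G S w) (hadj : G.Adj y y') :
    (((Qs G S w y ∪ Qs G S w y').card : ℕ) : ℤ) - (k + 1 - (Dv k (A + 1) B G S) w) ≤ (Dv k (A + 1) B G S) w - (Yv k (A + 1) B G S) w - 1 := by
  obtain ⟨f, hf, h1⟩ := ml_C3 h hm
  have h4 := m_slack h
  obtain ⟨-, hlam, hZ⟩ := ml_main h
  have hDw := h.hD w h.hw
  have hnum := ml_num h hm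
  have h5 := c3 hnum
  have h6 := h.hQ
  obtain ⟨h7, h8⟩ := ml_L h
  rw [card_Q_union G S h.hw k (A + 1) B hy hy' hadj]
  set C3 := ∑ u ∈ NH G S w, (sq k (A + 1) B G S) u (Qf G (NH G S w) f u) with hC3
  -- `C3 ≤ ε - 1`
  have h9 : C3 ≤ (Dv k (A + 1) B G S) w - (Yv k (A + 1) B G S) w - 1 := by
    have e1 : (k : ℤ) * ((Dv k (A + 1) B G S) w * (es k A B (j + 1)) * C3) ≤ (k + 1) * ((es k A B (j + 1)) * (Yv k (A + 1) B G S) w * (Dv k (A + 1) B G S w - Yv k (A + 1) B G S w - rS k (A + 1) B G S - K G (NH G S w) 2) - (Dv k (A + 1) B G S) w * (1 + (es k A B (j + 1)) * (max (-(rS k (A + 1) B G S)) 0))) := by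
      have a1 : (Dv k (A + 1) B G S) w * (1 + (es k A B (j + 1)) * (max (-(rS k (A + 1) B G S)) 0)) ≤ (Dv k (A + 1) B G S) w * ((- Phi k (A + 1) B (j + 2) G S) + (Phi k A B (j + 2) G (nb G S w)) + (Phi k A B (j + 1) G (nb G S w))) :=
        mul_le_mul_of_nonneg_left (by linarith) (by linarith)
      have a2 : 0 ≤ (k : ℤ) * ((es k A B (j + 1)) * ∑ u ∈ NH G S w, ((Yv k (A + 1) B G S) w * (Dv k (A + 1) B G S) u - (Dv k (A + 1) B G S) w * (Yv k (A + 1) B G S) u)) :=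
        mul_nonneg (by positivity) (mul_nonneg (by linarith) h4)
      have a3 := mul_le_mul_of_nonneg_left a1 (by positivity : (0 : ℤ) ≤ k + 1)
      linarith
    have e2 := mul_le_mul_of_nonneg_left h5 (by linarith : 0 ≤ (es k A B (j + 1)))
    have e3 : (0 : ℤ) < (k + 1) * (Dv k (A + 1) B G S) w := mul_pos (by positivity) (by linarith)
    have e4 : (es k A B (j + 1)) * (k * (Dv k (A + 1) B G S) w * C3) < (es k A B (j + 1)) * (k * (Dv k (A + 1) B G S) w * ((Dv k (A + 1) B G S) w - (Yv k (A + 1) B G S) w)) := by linarith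
    have e5 := lt_of_mul_lt_mul_left e4 (by linarith)
    have e6 : (0 : ℤ) ≤ k * (Dv k (A + 1) B G S) w := mul_nonneg (by positivity) (by linarith)
    have e7 := lt_of_mul_lt_mul_left e5 e6
    omega
  -- `c_e + cn_e ≤ C3`
  have h10 : (cv k (A + 1) B G S) y y' + ((nb G (NH G S w) y ∩ nb G (NH G S w) y').card : ℤ) ≤ C3 := by
    have hcn : ∀ u ∈ NH G S w, ∀ x ∈ Qf G (NH G S w) f u, 0 ≤ (cv k (A + 1) B G S) u x := by
      intro u hu x hx
      have hx' := m4_Qf_sub_nb hx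
      rw [mem_nb] at hx'
      exact h.hc u (m4_mem_NH.1 hu).1 x hx'.1 hx'.2
    have e1 : (cv k (A + 1) B G S) y y' ≤ ∑ u ∈ NH G S w, ∑ x ∈ Qf G (NH G S w) f u, (cv k (A + 1) B G S) u x := by
      have hne : f y ≠ f y' := fun e => hadj.ne (hf hy hy' e)
      rcases lt_or_gt_of_ne hne with hlt | hlt
      · have a1 : y ∈ Qf G (NH G S w) f y' := by
          unfold Qf; rw [mem_filter]; exact ⟨hy, hadj.symm, hlt⟩
        have a2 : (cv k (A + 1) B G S) y' y ≤ ∑ x ∈ Qf G (NH G S w) f y', (cv k (A + 1) B G S) y' x :=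
          single_le_sum (f := fun x => (cv k (A + 1) B G S) y' x) (fun x hx => hcn y' hy' x hx) a1
        have a3 : ∑ x ∈ Qf G (NH G S w) f y', (cv k (A + 1) B G S) y' x ≤
            ∑ u ∈ NH G S w, ∑ x ∈ Qf G (NH G S w) f u, (cv k (A + 1) B G S) u x :=
          single_le_sum (f := fun u => ∑ x ∈ Qf G (NH G S w) f u, (cv k (A + 1) B G S) u x)
            (fun u hu => sum_nonneg (hcn u hu)) hy'
        have a4 : (cv k (A + 1) B G S) y' y = (cv k (A + 1) B G S) y y' := by unfold cv; rw [inter_comm]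
        linarith
      · have a1 : y' ∈ Qf G (NH G S w) f y := by
          unfold Qf; rw [mem_filter]; exact ⟨hy', hadj, hlt⟩
        have a2 : (cv k (A + 1) B G S) y y' ≤ ∑ x ∈ Qf G (NH G S w) f y, (cv k (A + 1) B G S) y x :=
          single_le_sum (f := fun x => (cv k (A + 1) B G S) y x) (fun x hx => hcn y hy x hx) a1
        have a3 : ∑ x ∈ Qf G (NH G S w) f y, (cv k (A + 1) B G S) y x ≤
            ∑ u ∈ NH G S w, ∑ x ∈ Qf G (NH G S w) f u, (cv k (A + 1) B G S) u x :=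
          single_le_sum (f := fun u => ∑ x ∈ Qf G (NH G S w) f u, (cv k (A + 1) B G S) u x)
            (fun u hu => sum_nonneg (hcn u hu)) hy
        linarith
    have e2 : ((nb G (NH G S w) y ∩ nb G (NH G S w) y').card : ℤ) ≤ K G (NH G S w) 3 := by
      rw [show (3 : ℕ) = 2 + 1 from rfl, K_erase G hy]
      have b1 : y' ∈ nb G (NH G S w) y := by rw [mem_nb]; exact ⟨hy', hadj⟩
      rw [show (2 : ℕ) = 1 + 1 from rfl, K_erase G b1, nb_nb, K_one]
      have b2 := K_nonneg G ((NH G S w).erase y) (1 + 1 + 1)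
      have b3 := K_nonneg G ((nb G (NH G S w) y).erase y') (1 + 1)
      linarith
    have e3 : C3 = (∑ u ∈ NH G S w, ∑ x ∈ Qf G (NH G S w) f u, (cv k (A + 1) B G S) u x) + K G (NH G S w) 3 := by
      rw [show (3 : ℕ) = 2 + 1 from rfl, K_last G (NH G S w) f hf 2, ← sum_add_distrib]
      rfl
    linarith
  linarith

end Pool.Agent.Helper76.LSr
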